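import Pool.Agent.Helper71.TL.LogS
import Pool.Agent.Helper30.TL.Order
import Pool.Agent.Helper82.TL.Beta
import Pool.Agent.Helper70.TB.GFun

/-!
# Project TL, module TL-H: the improved entropy bound
-/

set_option autoImplicit false

namespace Pool.Agent.Helper84.TL

open Finset Pool.Agent.Lead.TB

namespace H61Imp

theorem extra_nonneg {n j : ℕ} (hj : 1 ≤ j) (G : Gr n) (σ : Equiv.Perm (Fin n)) (v : Fin n) :
    0 ≤ 19 / (j : ℝ) ^ 2 * Bv G σ v + 96 * Real.log j / (j : ℝ) ^ 3 * Cv G σ v := by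
  have : 0 ≤ Real.log j := Real.log_nonneg (by exact_mod_cast hj)
  positivity

theorem small {n j : ℕ} (hj : 1 ≤ j) (hj3 : j ≤ 3) (G : Gr n) (hG : Reg j G) :
    ∑ σ ∈ pm G, Real.exp (-cost j G σ) ≤ 1 := by
  have hlog : Real.log (g j) ≤ Real.log j - 1 + 4 / j := by
    rw [Breg.log_g]
    unfold Breg.L
    have hj0 : (0 : ℝ) < j := by exact_mod_cast hj
    have h1 : Real.log (j.factorial : ℝ) ≤ j * Real.log j := by
      rw [← Real.log_pow]
      apply Real.log_le_log (by exact_mod_cast j.factorial_pos)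
      exact_mod_cast Nat.factorial_le_pow j
    have h2 : Real.log (j.factorial : ℝ) / j ≤ Real.log j := by
      rw [div_le_iff₀ hj0]; linarith
    have h3 : (1 : ℝ) ≤ 4 / j := by
      rw [le_div_iff₀ hj0]
      have : (j : ℝ) ≤ 3 := by exact_mod_cast hj3
      linarith
    linarith
  have hb := bregman G
  have hprod : ∏ r, g (G r).card = g j ^ n := by
    rw [Finset.prod_congr rfl (fun r _ => by rw [hG.1 r])]; simp
  rw [hprod] at hb
  have hle : ∀ σ ∈ pm G,
      Real.exp (-cost j G σ) ≤ Real.exp (-(n * (Real.log j - 1 + 4 / j))) := by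
    intro σ _
    apply Real.exp_le_exp.mpr
    unfold cost
    have := Finset.sum_nonneg (fun v (_ : v ∈ (univ : Finset (Fin n))) =>
      extra_nonneg hj G σ v)
    linarith
  calc ∑ σ ∈ pm G, Real.exp (-cost j G σ)
      ≤ ∑ σ ∈ pm G, Real.exp (-(n * (Real.log j - 1 + 4 / j))) := Finset.sum_le_sum hle
    _ = (pm G).card * Real.exp (-(n * (Real.log j - 1 + 4 / j))) := by
        rw [Finset.sum_const, nsmul_eq_mul]
    _ ≤ g j ^ n * Real.exp (-(n * (Real.log j - 1 + 4 / j))) :=
        mul_le_mul_of_nonneg_right hb (Real.exp_pos _).le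
    _ = Real.exp (n * Real.log (g j) - n * (Real.log j - 1 + 4 / j)) := by
        rw [Real.exp_sub, Real.exp_nat_mul, Real.exp_log (Breg.g_pos j), Real.exp_neg]
        ring
    _ ≤ 1 := by
        rw [Real.exp_le_one_iff]
        have := mul_le_mul_of_nonneg_left hlog (Nat.cast_nonneg (α := ℝ) n)
        linarith

/-- The predictor: columns proportional to the inverse degrees. -/
noncomputable def om {n : ℕ} (G : Gr n) (U K : Finset (Fin n)) (v w : Fin n) : ℝ :=
  ((1 : ℝ) / dg G U w) / ∑ w' ∈ G v ∩ K, (1 : ℝ) / dg G U w'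

theorem dg_pos {n : ℕ} {G : Gr n} {U : Finset (Fin n)} {v w : Fin n} (hv : v ∈ U)
    (hw : w ∈ G v) : 0 < dg G U w := by
  unfold dg
  exact Finset.card_pos.mpr ⟨v, Finset.mem_filter.mpr ⟨hv, hw⟩⟩

theorem om_pos {n : ℕ} (G : Gr n) (U K : Finset (Fin n)) (v w : Fin n) (hv : v ∈ U)
    (hw : w ∈ K) (hwv : w ∈ G v) : 0 < om G U K v w := by
  unfold om
  have h1 : ∀ w' ∈ G v ∩ K, (0 : ℝ) < (1 : ℝ) / dg G U w' := by
    intro w' hw'
    have : (0 : ℝ) < dg G U w' := by
      exact_mod_cast dg_pos hv (Finset.mem_inter.mp hw').1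
    positivity
  have hm : w ∈ G v ∩ K := Finset.mem_inter.mpr ⟨hwv, hw⟩
  exact div_pos (h1 w hm) (Finset.sum_pos h1 ⟨w, hm⟩)

theorem om_sum {n : ℕ} (G : Gr n) (U K : Finset (Fin n)) (v : Fin n) :
    ∑ w ∈ G v ∩ K, om G U K v w ≤ 1 := by
  unfold om
  rw [← Finset.sum_div]
  exact div_self_le_one _

theorem log_om {n : ℕ} (G : Gr n) (σ : Equiv.Perm (Fin n)) (hσ : σ ∈ pm G) (v : Fin n)
    (U : Finset (Fin n)) (hv : v ∈ U) :
    Real.log (om G U (U.image σ) v (σ v)) =
      -Real.log (dg G U (σ v)) - Real.log (Sv G σ U v) := by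
  have hσv : σ v ∈ G v := (Finset.mem_filter.mp hσ).2 v
  have hK : G v ∩ U.image σ = (G v).filter (fun w => σ.symm w ∈ U) := by
    ext w
    simp only [Finset.mem_inter, Finset.mem_image, Finset.mem_filter]
    constructor
    · rintro ⟨h1, x, hx, rfl⟩
      exact ⟨h1, by simpa using hx⟩
    · rintro ⟨h1, h2⟩
      exact ⟨h1, σ.symm w, h2, by simp⟩
  have hS : 0 < Sv G σ U v := by
    unfold Sv
    apply Finset.sum_pos
    · intro w' hw'
      have : (0 : ℝ) < dg G U w' := by
        exact_mod_cast dg_pos hv (Finset.mem_filter.mp hw').1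
      positivity
    · exact ⟨σ v, Finset.mem_filter.mpr ⟨hσv, by simpa using hv⟩⟩
  have hd : (0 : ℝ) < dg G U (σ v) := by exact_mod_cast dg_pos hv hσv
  unfold om
  rw [hK]
  change Real.log ((1 : ℝ) / dg G U (σ v) / Sv G σ U v) = _
  rw [Real.log_div (by positivity) hS.ne', one_div, Real.log_inv]

theorem log_fact (j : ℕ) :
    ∑ i ∈ range j, Real.log ((i : ℝ) + 1) = Real.log (j.factorial : ℝ) := by
  induction j with
  | zero => simp
  | succ j ih =>
    rw [Finset.sum_range_succ, ih, Nat.factorial_succ, Nat.cast_mul,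
      Real.log_mul (by positivity) (by exact_mod_cast j.factorial_ne_zero)]
    push_cast
    ring

theorem avg_dg {n j : ℕ} (hj : 1 ≤ j) (G : Gr n) (hG : Reg j G) (σ : Equiv.Perm (Fin n))
    (hσ : σ ∈ pm G) (v : Fin n) :
    ∑ A ∈ (univ.erase v).powerset, wt n A.card * Real.log (dg G (insert v A) (σ v)) =
      Real.log (g j) := by
  have hσv : σ v ∈ G v := (Finset.mem_filter.mp hσ).2 v
  have hn : (univ.erase v : Finset (Fin n)).card + 1 = n := by
    rw [Finset.card_erase_of_mem (Finset.mem_univ v), Finset.card_univ, Fintype.card_fin]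
    have := v.2
    omega
  set Y : Finset (Fin n) := (univ.erase v).filter (fun x => σ v ∈ G x) with hY
  have hYsub : Y ⊆ univ.erase v := Finset.filter_subset _ _
  have hYc : Y.card = j - 1 := by
    have h1 : Y = (univ.filter fun r => σ v ∈ G r).erase v := by
      rw [hY, Finset.filter_erase]
    rw [h1, Finset.card_erase_of_mem (Finset.mem_filter.mpr ⟨Finset.mem_univ v, hσv⟩),
      hG.2 (σ v)]
  have key := wt_rank hYsub (fun i => Real.log ((i : ℝ) + 1))
  rw [hn, hYc] at key
  have hj1 : j - 1 + 1 = j := by omega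
  have hjr : ((j - 1 : ℕ) : ℝ) + 1 = j := by
    have : ((j - 1 + 1 : ℕ) : ℝ) = j := by rw [hj1]
    push_cast at this
    exact_mod_cast this
  rw [hj1, hjr, log_fact] at key
  rw [Breg.log_g]
  unfold Breg.L
  have h2 : ∀ A ∈ (univ.erase v).powerset, wt n A.card * Real.log (dg G (insert v A) (σ v)) =
      wt n A.card * Real.log (((A ∩ Y).card : ℝ) + 1) := by
    intro A hA
    have hA' := Finset.mem_powerset.mp hA
    have hvA : v ∉ A := fun h => (Finset.mem_erase.mp (hA' h)).1 rfl
    have h3 : dg G (insert v A) (σ v) = (A ∩ Y).card + 1 := by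
      unfold dg
      rw [Finset.filter_insert, if_pos hσv]
      have h4 : A.filter (fun x => σ v ∈ G x) = A ∩ Y := by
        ext x
        simp only [hY, Finset.mem_filter, Finset.mem_inter, Finset.mem_erase, Finset.mem_univ,
          and_true]
        constructor
        · rintro ⟨h5, h6⟩
          exact ⟨h5, fun h => hvA (h ▸ h5), h6⟩
        · rintro ⟨h5, _, h6⟩
          exact ⟨h5, h6⟩
      rw [h4, Finset.card_insert_of_notMem]
      intro h
      exact hvA (Finset.mem_inter.mp h).1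
    rw [h3]
    push_cast
    rfl
  rw [Finset.sum_congr rfl h2, key]
  ring

theorem big {n j : ℕ} (hj : 4 ≤ j) (G : Gr n) (hG : Reg j G) :
    ∑ σ ∈ pm G, Real.exp (-cost j G σ) ≤ 1 := by
  refine le_trans (Finset.sum_le_sum ?_) (order_avg G (om G)
    (fun U K v w hv hw hwv => om_pos G U K v w hv hw hwv) (fun U K v _ => om_sum G U K v))
  intro σ hσ
  apply Real.exp_le_exp.mpr
  have hj0 : (0 : ℝ) < j := by exact_mod_cast (show 0 < j by omega)
  have hg : Real.log (g j) ≤ Real.log j - 1 + Real.log j / (2 * j) + 1 / j := by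
    rw [Breg.log_g]
    unfold Breg.L
    rw [div_le_iff₀ hj0]
    have := GF.fact_up j (by omega)
    have h5 : (Real.log j - 1 + Real.log j / (2 * j) + 1 / j) * j =
        j * Real.log j - j + Real.log j / 2 + 1 := by
      field_simp
    rw [h5]
    linarith
  have hv : ∀ v, -(Real.log j - 1 + 4 / j) - (19 / (j : ℝ) ^ 2 * Bv G σ v +
      96 * Real.log j / (j : ℝ) ^ 3 * Cv G σ v) ≤
      ∑ A ∈ (univ.erase v).powerset, wt n A.card *
        Real.log (om G (insert v A) ((insert v A).image σ) v (σ v)) := by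
    intro v
    have h1 : ∑ A ∈ (univ.erase v).powerset, wt n A.card *
        Real.log (om G (insert v A) ((insert v A).image σ) v (σ v)) =
        -(∑ A ∈ (univ.erase v).powerset, wt n A.card * Real.log (dg G (insert v A) (σ v))) -
        ∑ A ∈ (univ.erase v).powerset, wt n A.card * Real.log (Sv G σ (insert v A) v) := by
      rw [← Finset.sum_neg_distrib, ← Finset.sum_sub_distrib]
      apply Finset.sum_congr rfl
      intro A _
      rw [log_om G σ hσ v (insert v A) (Finset.mem_insert_self v A)]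
      ring
    rw [h1, avg_dg (by omega) G hG σ hσ v]
    have h2 := log_Sv hj G hG σ hσ v
    have h3 : Real.log j / (2 * j) = Real.log j / j / 2 := by field_simp
    have h4 : (4 : ℝ) / j = 4 * (1 / j) := by ring
    have h6 : (2 : ℝ) / j = 2 * (1 / j) := by ring
    rw [h3] at hg
    rw [h6] at h2
    rw [h4]
    linarith
  have h7 : -cost j G σ = ∑ v : Fin n, (-(Real.log j - 1 + 4 / j) - (19 / (j : ℝ) ^ 2 * Bv G σ v +
      96 * Real.log j / (j : ℝ) ^ 3 * Cv G σ v)) := by
    unfold cost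
    rw [Finset.sum_sub_distrib, Finset.sum_const, Finset.card_univ, Fintype.card_fin,
      nsmul_eq_mul]
    ring
  rw [h7]
  exact Finset.sum_le_sum fun v _ => hv v

end H61Imp

theorem imp {n j : ℕ} (hj : 1 ≤ j) (G : Gr n) (hG : Reg j G) :
    ∑ σ ∈ pm G, Real.exp (-cost j G σ) ≤ 1 := by
  rcases Nat.lt_or_ge j 4 with h | h
  · exact H61Imp.small hj (by omega) G hG
  · exact H61Imp.big h G hG

end Pool.Agent.Helper84.TL
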